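import Pool.Agent.T9h10.CS.Use

/-! From ordered triples of vertices to the non-edges. -/

set_option autoImplicit false
set_option maxRecDepth 100000
open Finset
open scoped Classical

namespace Pool.Agent.T9h10.CS
open Pool.Agent.H122R2.N6 Pool.Agent.H37R3.K5 Pool.Agent.T9h10.FC Pool.Agent.H122R2.K5

section
variable {n : ℕ}

/-- the sum of the codegrees of the three pairs of a set of three vertices -/
noncomputable def psum3 (H : Finset (Finset (Fin n))) (S : Finset (Fin n)) : ℕ :=
  ∑ v ∈ S, (H.filter (S.erase v ⊆ ·)).card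

theorem tri_eq {V : Type} [DecidableEq V] (H : Finset (Finset V)) (a b c : V) :
    tri H a b c = if ({a, b, c} : Finset V) ∈ H then 1 else 0 := by
  unfold tri
  have e : (@insert V (Finset V) (@Finset.instInsert V fun a b => Classical.propDecidable (a = b))
      a (@insert V (Finset V) (@Finset.instInsert V fun a b => Classical.propDecidable (a = b))
        b {c})) = ({a, b, c} : Finset V) := by
    ext t
    simp only [mem_insert, mem_singleton]
  rw [e]
  split_ifs <;> rfl

theorem tri_one' {V : Type} [DecidableEq V] {H : Finset (Finset V)} {a b c : V} :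
    tri H a b c = 1 ↔ ({a, b, c} : Finset V) ∈ H := by
  rw [tri_eq]
  split_ifs with h <;> simp [h]

theorem distinct3 {V : Type} [DecidableEq V] {H : Finset (Finset V)} (hH : ∀ e ∈ H, e.card = 3)
    {a b c : V} (h : ({a, b, c} : Finset V) ∈ H) : a ≠ b ∧ a ≠ c ∧ b ≠ c := by
  have h3 := hH _ h
  refine ⟨?_, ?_, ?_⟩
  · rintro rfl
    rw [insert_idem] at h3
    have := card_le_two (a := a) (b := c)
    omega
  · rintro rfl
    have e : ({a, b, a} : Finset V) = {a, b} := by ext t; simp; tauto
    rw [e] at h3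
    have := card_le_two (a := a) (b := b)
    omega
  · rintro rfl
    have e : ({a, b, b} : Finset V) = {a, b} := by ext t; simp
    rw [e] at h3
    have := card_le_two (a := a) (b := b)
    omega

theorem tri_self {H : Finset (Finset (Fin n))} (h3 : ∀ s ∈ H, s.card = 3) (x w : Fin n) :
    tri H x x w = 0 := by
  rw [tri_eq, if_neg]
  intro h
  exact (distinct3 h3 h).1 rfl

theorem cg_self {H : Finset (Finset (Fin n))} (h3 : ∀ s ∈ H, s.card = 3) (x : Fin n) :
    cg (tri H) x x = 0 := by
  unfold cg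
  exact sum_eq_zero fun w _ => tri_self h3 x w

theorem cg_le_n {V : Type} [Fintype V] {E : V → V → V → ℕ} (hE : Sy E) (x y : V) :
    cg E x y ≤ Fintype.card V := by
  unfold cg
  calc ∑ w, E x y w ≤ ∑ _w : V, 1 := sum_le_sum fun w _ => by
        rcases hE.b x y w with h | h <;> rw [h]; norm_num
    _ = Fintype.card V := by simp

theorem cg_le_cdg {H : Finset (Finset (Fin n))} (h3 : ∀ s ∈ H, s.card = 3) (x y : Fin n) :
    cg (tri H) x y ≤ (H.filter (({x, y} : Finset (Fin n)) ⊆ ·)).card := by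
  have e : cg (tri H) x y = (univ.filter fun w => ({x, y, w} : Finset (Fin n)) ∈ H).card := by
    rw [card_filter]
    exact sum_congr rfl fun w _ => tri_eq H x y w
  rw [e]
  refine card_le_card_of_injOn (fun w => ({x, y, w} : Finset (Fin n))) ?_ ?_
  · intro w hw
    have h := (mem_filter.mp (mem_coe.mp hw)).2
    rw [mem_coe, mem_filter]
    refine ⟨h, ?_⟩
    intro t ht
    simp only [mem_insert, mem_singleton] at ht ⊢
    tauto
  · intro w hw w' hw' hww
    have h := (mem_filter.mp (mem_coe.mp hw)).2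
    have hd := distinct3 h3 h
    have h1 : w ∈ ({x, y, w'} : Finset (Fin n)) := by
      have : w ∈ ({x, y, w} : Finset (Fin n)) := by simp
      rw [show ({x, y, w} : Finset (Fin n)) = {x, y, w'} from hww] at this
      exact this
    simp only [mem_insert, mem_singleton] at h1
    rcases h1 with h1 | h1 | h1
    · exact absurd h1.symm hd.2.1
    · exact absurd h1.symm hd.2.2
    · exact h1

theorem psum3_ge {H : Finset (Finset (Fin n))} (h3 : ∀ s ∈ H, s.card = 3) {x y z : Fin n}
    (hxy : x ≠ y) (hxz : x ≠ z) (hyz : y ≠ z) :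
    cg (tri H) x y + cg (tri H) x z + cg (tri H) y z ≤ psum3 H {x, y, z} := by
  have e1 : ({x, y, z} : Finset (Fin n)).erase x = {y, z} := by
    ext t; simp only [mem_erase, mem_insert, mem_singleton]
    constructor
    · tauto
    · rintro (rfl | rfl)
      · exact ⟨hxy.symm, Or.inr (Or.inl rfl)⟩
      · exact ⟨hxz.symm, Or.inr (Or.inr rfl)⟩
  have e2 : ({x, y, z} : Finset (Fin n)).erase y = {x, z} := by
    ext t; simp only [mem_erase, mem_insert, mem_singleton]
    constructor
    · tauto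
    · rintro (rfl | rfl)
      · exact ⟨hxy, Or.inl rfl⟩
      · exact ⟨hyz.symm, Or.inr (Or.inr rfl)⟩
  have e3 : ({x, y, z} : Finset (Fin n)).erase z = {x, y} := by
    ext t; simp only [mem_erase, mem_insert, mem_singleton]
    constructor
    · tauto
    · rintro (rfl | rfl)
      · exact ⟨hxz, Or.inl rfl⟩
      · exact ⟨hyz, Or.inr (Or.inl rfl)⟩
  unfold psum3
  rw [sum_insert (by simp [hxy, hxz]), sum_insert (by simp [hyz]), sum_singleton, e1, e2, e3]
  have h1 := cg_le_cdg h3 x y
  have h2 := cg_le_cdg h3 x z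
  have h4 := cg_le_cdg h3 y z
  omega

/-- the excess of a set of three vertices -/
noncomputable def gS (H : Finset (Finset (Fin n))) (S : Finset (Fin n)) : ℕ :=
  if S ∈ H then 0 else 100 * psum3 H S - 199 * n

theorem ex_le {H : Finset (Finset (Fin n))} (h3 : ∀ s ∈ H, s.card = 3) (x y z : Fin n) :
    ex (tri H) x y z ≤ (if x ≠ y ∧ x ≠ z ∧ y ≠ z then gS H {x, y, z} else 0) +
      ((if x = y then n else 0) + ((if x = z then n else 0) + (if y = z then n else 0))) := by
  have hE := tri_sy H
  have hc : ∀ u v, cg (tri H) u v ≤ n := fun u v => by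
    have := cg_le_n hE u v
    rwa [Fintype.card_fin] at this
  have hs : (1 - tri H x y z) * (100 * (cg (tri H) x y + cg (tri H) x z + cg (tri H) y z) - 199 * n)
      ≤ 100 * (cg (tri H) x y + cg (tri H) x z + cg (tri H) y z) - 199 * n := by
    calc _ ≤ 1 * (100 * (cg (tri H) x y + cg (tri H) x z + cg (tri H) y z) - 199 * n) :=
          Nat.mul_le_mul_right _ (Nat.sub_le _ _)
      _ = _ := one_mul _
  unfold ex
  rw [Fintype.card_fin]
  by_cases hxy : x = y
  · have h1 : cg (tri H) x y = 0 := by rw [← hxy]; exact cg_self h3 x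
    have h2 := hc x z
    have h4 := hc y z
    rw [if_pos hxy]
    omega
  · by_cases hxz : x = z
    · have h1 : cg (tri H) x z = 0 := by rw [← hxz]; exact cg_self h3 x
      have h2 := hc x y
      have h4 := hc y z
      rw [if_pos hxz]
      omega
    · by_cases hyz : y = z
      · have h1 : cg (tri H) y z = 0 := by rw [← hyz]; exact cg_self h3 y
        have h2 := hc x y
        have h4 := hc x z
        rw [if_pos hyz]
        omega
      · rw [if_pos ⟨hxy, hxz, hyz⟩]
        refine le_trans ?_ (Nat.le_add_right _ _)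
        unfold gS
        have hp := psum3_ge h3 hxy hxz hyz
        by_cases hm : ({x, y, z} : Finset (Fin n)) ∈ H
        · rw [if_pos hm]
          have : tri H x y z = 1 := tri_one'.mpr hm
          rw [this]
          simp
        · rw [if_neg hm]
          omega

theorem tuples_le (g : Finset (Fin n) → ℕ) :
    ∑ x : Fin n, ∑ y : Fin n, ∑ z : Fin n, (if x ≠ y ∧ x ≠ z ∧ y ≠ z then g {x, y, z} else 0) ≤
      6 * ∑ S ∈ (univ : Finset (Fin n)).powersetCard 3, g S := by
  set T : Finset (Fin n × Fin n × Fin n) :=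
    univ.filter fun t => t.1 ≠ t.2.1 ∧ t.1 ≠ t.2.2 ∧ t.2.1 ≠ t.2.2 with hT
  have e : ∑ x : Fin n, ∑ y : Fin n, ∑ z : Fin n,
      (if x ≠ y ∧ x ≠ z ∧ y ≠ z then g {x, y, z} else 0) = ∑ t ∈ T, g {t.1, t.2.1, t.2.2} := by
    rw [hT, sum_filter, Fintype.sum_prod_type]
    refine sum_congr rfl fun x _ => ?_
    rw [Fintype.sum_prod_type]
  have hm : ∀ t ∈ T, ({t.1, t.2.1, t.2.2} : Finset (Fin n)) ∈
      (univ : Finset (Fin n)).powersetCard 3 := by
    intro t ht
    have h := (mem_filter.mp ht).2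
    rw [mem_powersetCard]
    exact ⟨subset_univ _, card_eq_three.mpr ⟨_, _, _, h.1, h.2.1, h.2.2, rfl⟩⟩
  rw [e, ← sum_fiberwise_of_maps_to hm, mul_sum]
  refine sum_le_sum fun S hS => ?_
  have h1 : ∑ t ∈ T.filter (fun t => ({t.1, t.2.1, t.2.2} : Finset (Fin n)) = S),
      g {t.1, t.2.1, t.2.2} =
      ∑ t ∈ T.filter (fun t => ({t.1, t.2.1, t.2.2} : Finset (Fin n)) = S), g S :=
    sum_congr rfl fun t ht => by rw [(mem_filter.mp ht).2]
  rw [h1, sum_const, smul_eq_mul]
  refine Nat.mul_le_mul_right _ ?_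
  obtain ⟨p, q, r, hpq, hpr, hqr, rfl⟩ := card_eq_three.mp (mem_powersetCard.mp hS).2
  have hsub : T.filter (fun t => ({t.1, t.2.1, t.2.2} : Finset (Fin n)) = {p, q, r}) ⊆
      ({(p, q, r), (p, r, q), (q, p, r), (q, r, p), (r, p, q), (r, q, p)} :
        Finset (Fin n × Fin n × Fin n)) := by
    rintro ⟨x, y, z⟩ ht
    obtain ⟨h1, h2⟩ := mem_filter.mp ht
    obtain ⟨hxy, hxz, hyz⟩ := (mem_filter.mp h1).2
    simp only at h2 hxy hxz hyz
    have hx : x ∈ ({p, q, r} : Finset (Fin n)) := by rw [← h2]; simp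
    have hy : y ∈ ({p, q, r} : Finset (Fin n)) := by rw [← h2]; simp
    have hz : z ∈ ({p, q, r} : Finset (Fin n)) := by rw [← h2]; simp
    simp only [mem_insert, mem_singleton] at hx hy hz
    simp only [mem_insert, mem_singleton, Prod.mk.injEq]
    rcases hx with rfl | rfl | rfl <;> rcases hy with rfl | rfl | rfl <;>
      rcases hz with rfl | rfl | rfl <;> simp_all
  refine (card_le_card hsub).trans ?_
  exact card_le_six

theorem X3_le {H : Finset (Finset (Fin n))} (h3 : ∀ s ∈ H, s.card = 3) :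
    ∑ x, ∑ y, ∑ z, ex (tri H) x y z ≤
      6 * ∑ S ∈ (univ : Finset (Fin n)).powersetCard 3, gS H S + 3 * n ^ 3 := by
  have h1 : ∑ x, ∑ y, ∑ z, ex (tri H) x y z ≤ ∑ x : Fin n, ∑ y : Fin n, ∑ z : Fin n,
      ((if x ≠ y ∧ x ≠ z ∧ y ≠ z then gS H {x, y, z} else 0) +
      ((if x = y then n else 0) + ((if x = z then n else 0) + (if y = z then n else 0)))) :=
    sum_le_sum fun x _ => sum_le_sum fun y _ => sum_le_sum fun z _ => ex_le h3 x y z
  refine h1.trans ?_
  simp only [sum_add_distrib]
  have h2 := tuples_le (gS H)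
  have e1 : ∑ x : Fin n, ∑ y : Fin n, ∑ _z : Fin n, (if x = y then n else 0) = n ^ 3 := by
    simp only [sum_const, card_univ, Fintype.card_fin, smul_eq_mul, ← mul_sum,
      sum_ite_eq, mem_univ, if_true]
    ring
  have e2 : ∑ x : Fin n, ∑ _y : Fin n, ∑ z : Fin n, (if x = z then n else 0) = n ^ 3 := by
    simp only [sum_const, card_univ, Fintype.card_fin, smul_eq_mul,
      sum_ite_eq, mem_univ, if_true]
    ring
  have e3 : ∑ _x : Fin n, ∑ y : Fin n, ∑ z : Fin n, (if y = z then n else 0) = n ^ 3 := by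
    simp only [sum_const, card_univ, Fintype.card_fin, smul_eq_mul,
      sum_ite_eq, mem_univ, if_true]
    ring
  rw [e1, e2, e3]
  omega

theorem bound {H : Finset (Finset (Fin n))} (h3 : ∀ s ∈ H, s.card = 3) (hK : NoK5 (tri H)) :
    48 * n * H.card ≤ 6 * n ^ 4 + n ^ 3 +
      2 * ∑ S ∈ (univ : Finset (Fin n)).powersetCard 3, gS H S := by
  rcases Nat.eq_zero_or_pos n with h0 | hn
  · subst h0; simp
  have h := ineq (tri H) (tri_sy H) hK
  rw [Fintype.card_fin] at h
  have hR : (6 : ℤ) * (H.card : ℤ) ≤ ∑ a, ∑ b, ∑ c, (tri H a b c : ℤ) := by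
    exact_mod_cast six_card_le h3
  have hX : ∑ x, ∑ y, ∑ z, (ex (tri H) x y z : ℤ) ≤
      6 * ((∑ S ∈ (univ : Finset (Fin n)).powersetCard 3, gS H S : ℕ) : ℤ) + 3 * (n : ℤ) ^ 3 := by
    exact_mod_cast X3_le h3
  set R : ℤ := ∑ a, ∑ b, ∑ c, (tri H a b c : ℤ) with hRd
  set X : ℤ := ∑ x, ∑ y, ∑ z, (ex (tri H) x y z : ℤ) with hXd
  set G : ℕ := ∑ S ∈ (univ : Finset (Fin n)).powersetCard 3, gS H S with hG
  have hn2 : (0 : ℤ) < (n : ℤ) ^ 2 := by positivity
  have hn1 : (0 : ℤ) ≤ (n : ℤ) := by positivity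
  have hn3 : (0 : ℤ) ≤ (n : ℤ) ^ 3 := by positivity
  have hG0 : (0 : ℤ) ≤ (G : ℤ) := by positivity
  have h7 : (n : ℤ) ^ 2 * (197912092999680 * ((n : ℤ) * R)) ≤ (n : ℤ) ^ 2 *
      (148434069749760 * (n : ℤ) ^ 4 + 60 * 1048576 * 127844 * X) := by
    calc _ = 197912092999680 * (n : ℤ) ^ 3 * R := by ring
      _ ≤ _ := h
      _ = _ := by ring
  have h8 := le_of_mul_le_mul_left h7 hn2
  have h9 := mul_le_mul_of_nonneg_left hR hn1
  have h10 : 48 * (n : ℤ) * (H.card : ℤ) ≤ 6 * (n : ℤ) ^ 4 + (n : ℤ) ^ 3 + 2 * (G : ℤ) := by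
    linarith
  exact_mod_cast h10

/-- few non-edges with a large codegree sum -/
theorem bound_count {H : Finset (Finset (Fin n))} (h3 : ∀ s ∈ H, s.card = 3)
    (hK : NoK5 (tri H)) :
    48 * H.card ≤ 6 * n ^ 3 + n ^ 2 + 202 *
      (((univ : Finset (Fin n)).powersetCard 3).filter
        fun S => S ∉ H ∧ 199 * n < 100 * psum3 H S).card := by
  rcases Nat.eq_zero_or_pos n with h0 | hn
  · subst h0
    have : H.card = 0 := by
      rw [card_eq_zero, eq_empty_iff_forall_notMem]
      intro s hs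
      have h1 := h3 s hs
      have h2 := card_le_univ s
      rw [Fintype.card_fin] at h2
      omega
    rw [this]; simp
  have hb := bound h3 hK
  have hd : ∀ P : Finset (Fin n), P.card = 2 → (H.filter (P ⊆ ·)).card ≤ n := by
    intro P hP
    have hsub : H.filter (P ⊆ ·) ⊆ univ.image fun w : Fin n => insert w P := by
      intro e he
      obtain ⟨he1, he2⟩ := mem_filter.mp he
      have hc := h3 e he1
      have hcs : (e \ P).card = 1 := by
        rw [card_sdiff_of_subset he2, hc, hP]
      obtain ⟨w, hw⟩ := card_eq_one.mp hcs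
      refine mem_image.mpr ⟨w, mem_univ _, ?_⟩
      rw [insert_eq, ← hw, sdiff_union_of_subset he2]
    refine (card_le_card hsub).trans (card_image_le.trans ?_)
    rw [card_univ, Fintype.card_fin]
  have hg : ∀ S ∈ (univ : Finset (Fin n)).powersetCard 3, gS H S ≤
      101 * n * (if S ∉ H ∧ 199 * n < 100 * psum3 H S then 1 else 0) := by
    intro S hS
    have hSc := (mem_powersetCard.mp hS).2
    unfold gS
    by_cases hm : S ∈ H
    · rw [if_pos hm]; exact Nat.zero_le _
    · rw [if_neg hm]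
      by_cases hl : 199 * n < 100 * psum3 H S
      · rw [if_pos ⟨hm, hl⟩]
        have hp : psum3 H S ≤ 3 * n := by
          unfold psum3
          calc ∑ v ∈ S, (H.filter (S.erase v ⊆ ·)).card ≤ ∑ _v ∈ S, n :=
                sum_le_sum fun v hv => hd _ (by rw [card_erase_of_mem hv, hSc])
            _ = 3 * n := by rw [sum_const, hSc, smul_eq_mul]
        omega
      · rw [if_neg (fun h => hl h.2)]
        omega
  have hs := sum_le_sum hg
  rw [← mul_sum, ← card_filter] at hs
  set N := (((univ : Finset (Fin n)).powersetCard 3).filter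
        fun S => S ∉ H ∧ 199 * n < 100 * psum3 H S).card with hN
  have h1 : n * (48 * H.card) ≤ n * (6 * n ^ 3 + n ^ 2 + 202 * N) := by
    calc n * (48 * H.card) = 48 * n * H.card := by ring
      _ ≤ 6 * n ^ 4 + n ^ 3 + 2 * ∑ S ∈ (univ : Finset (Fin n)).powersetCard 3, gS H S := hb
      _ ≤ 6 * n ^ 4 + n ^ 3 + 2 * (101 * n * N) := by omega
      _ = _ := by ring
  exact Nat.le_of_mul_le_mul_left h1 hn

/-- in the complete bipartite 3-graph the codegree sum of a non-edge is at most `3 m` -/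
theorem bip_psum (m : ℕ) (S : Finset (Fin (2 * m))) (hS : S.card = 3) (hm : S ∉ bip (2 * m) m) :
    psum3 (bip (2 * m) m) S ≤ 3 * m := by
  have hside : S ⊆ PA (2 * m) m ∨ S ⊆ PB (2 * m) m := by
    by_contra hcon
    push Not at hcon
    refine hm ?_
    unfold bip
    rw [mem_filter, mem_powersetCard]
    exact ⟨⟨subset_univ _, hS⟩, hcon.1, hcon.2⟩
  have key : ∀ (A B : Finset (Fin (2 * m))), (∀ i, i ∈ A ∨ i ∈ B) →
      (∀ e ∈ bip (2 * m) m, ¬ e ⊆ A) → B.card = m → S ⊆ A → ∀ v ∈ S,
      ((bip (2 * m) m).filter (S.erase v ⊆ ·)).card ≤ m := by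
    intro A B hAB hA hB hSA v hv
    have hsub : (bip (2 * m) m).filter (S.erase v ⊆ ·) ⊆ B.image fun w => insert w (S.erase v) := by
      intro e he
      obtain ⟨he1, he2⟩ := mem_filter.mp he
      have hc := bip_card _ _ e he1
      have hcs : (e \ S.erase v).card = 1 := by
        rw [card_sdiff_of_subset he2, hc, card_erase_of_mem hv, hS]
      obtain ⟨w, hw⟩ := card_eq_one.mp hcs
      have he : insert w (S.erase v) = e := by
        rw [insert_eq, ← hw, sdiff_union_of_subset he2]
      refine mem_image.mpr ⟨w, ?_, he⟩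
      rcases hAB w with h | h
      · exfalso
        refine hA e he1 ?_
        rw [← he]
        intro t ht
        rcases mem_insert.mp ht with rfl | ht
        · exact h
        · exact hSA (mem_of_mem_erase ht)
      · exact h
    exact (card_le_card hsub).trans (card_image_le.trans hB.le)
  unfold psum3
  have hall : ∀ v ∈ S, ((bip (2 * m) m).filter (S.erase v ⊆ ·)).card ≤ m := by
    rcases hside with h | h
    · exact key _ _ (mem_or _ _) (fun e he => (mem_filter.mp he).2.1) (card_PB m) h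
    · exact key _ _ (fun i => (mem_or _ _ i).symm) (fun e he => (mem_filter.mp he).2.2)
        (card_PA m) h
  calc ∑ v ∈ S, ((bip (2 * m) m).filter (S.erase v ⊆ ·)).card ≤ ∑ _v ∈ S, m := sum_le_sum hall
    _ = 3 * m := by rw [sum_const, hS, smul_eq_mul]

end
end Pool.Agent.T9h10.CS
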