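import Pool.Agent.T9h10.CS.Fin
import Pool.Agent.H122R2.K5.Lower5

/-! The inequality for the codegree sums of the non-edges. -/

set_option autoImplicit false
set_option maxRecDepth 100000
set_option maxHeartbeats 4000000
set_option linter.unusedSimpArgs false
set_option linter.unusedVariables false
open Finset
open scoped Classical

namespace Pool.Agent.T9h10.CS
open Pool.Agent.H122R2.N6 Pool.Agent.H37R3.Pen Pool.Agent.H37R3.K5 Pool.Agent.Y580.FL Pool.Agent.T9h10.FC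

section
variable {V : Type} [Fintype V] (E : V → V → V → ℕ)

/-- the excess of a non-edge -/
def ex (x y z : V) : ℕ :=
  (1 - E x y z) * (100 * (cg E x y + cg E x z + cg E y z) - 199 * Fintype.card V)

theorem term (u s D N : ℕ) (h : u ≤ 127844 * s) :
    (u : ℤ) * (100 * (D : ℤ) - 199 * (N : ℤ)) ≤ 127844 * ((s * (100 * D - 199 * N) : ℕ) : ℤ) := by
  rcases le_total (100 * D) (199 * N) with h1 | h1
  · rw [Nat.sub_eq_zero_of_le h1, Nat.mul_zero]
    have h2 : (100 * (D : ℤ) - 199 * (N : ℤ)) ≤ 0 := by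
      have : (100 * (D : ℤ)) ≤ 199 * (N : ℤ) := by exact_mod_cast h1
      linarith
    have h3 : (0 : ℤ) ≤ (u : ℤ) := by positivity
    have := mul_nonpos_of_nonneg_of_nonpos h3 h2
    simpa using this
  · obtain ⟨r, hr⟩ := Nat.exists_eq_add_of_le h1
    have h2 : 100 * D - 199 * N = r := by omega
    have h3 : (100 * (D : ℤ) - 199 * (N : ℤ)) = (r : ℤ) := by
      have : (100 * (D : ℤ)) = 199 * (N : ℤ) + (r : ℤ) := by exact_mod_cast hr
      linarith
    rw [h2, h3]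
    have h4 : u * r ≤ 127844 * s * r := Nat.mul_le_mul_right r h
    have h5 : (u : ℤ) * (r : ℤ) ≤ 127844 * (s : ℤ) * (r : ℤ) := by exact_mod_cast h4
    push_cast
    linarith

theorem S5_le (hE : Sy E) (a b c d e : V) : (S5 E zb kp a b c d e : ℤ) ≤
    376582732513280 * (Fintype.card V : ℤ) + 1048576 * 127844 * ((ex E a b c : ℤ) + (ex E a b d : ℤ) + (ex E a c d : ℤ) + (ex E b c d : ℤ) + (ex E a b e : ℤ) + (ex E a c e : ℤ) + (ex E b c e : ℤ) + (ex E a d e : ℤ) + (ex E b d e : ℤ) + (ex E c d e : ℤ)) := by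
  have h1 := (B2_true (B2_true (B2_true (B2_true (B2_true (B2_true (B2_true (B2_true (B2_true (B2_true rel_true (hE.b a b c)) (hE.b a b d)) (hE.b a c d)) (hE.b b c d)) (hE.b a b e)) (hE.b a c e)) (hE.b b c e)) (hE.b a d e)) (hE.b b d e)) (hE.b c d e))
  simp only [Bool.and_eq_true] at h1
  obtain ⟨hz, k0, k1, k2, k3, k4, k5, k6, k7, k8, k9, m0, m1, m2, m3, m4, m5, m6, m7, m8, m9⟩ := h1
  replace hz := Nat.eq_of_beq_eq_true hz
  replace k0 := Nat.eq_of_beq_eq_true k0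
  replace k1 := Nat.eq_of_beq_eq_true k1
  replace k2 := Nat.eq_of_beq_eq_true k2
  replace k3 := Nat.eq_of_beq_eq_true k3
  replace k4 := Nat.eq_of_beq_eq_true k4
  replace k5 := Nat.eq_of_beq_eq_true k5
  replace k6 := Nat.eq_of_beq_eq_true k6
  replace k7 := Nat.eq_of_beq_eq_true k7
  replace k8 := Nat.eq_of_beq_eq_true k8
  replace k9 := Nat.eq_of_beq_eq_true k9
  replace m0 := Nat.le_of_ble_eq_true m0
  replace m1 := Nat.le_of_ble_eq_true m1
  replace m2 := Nat.le_of_ble_eq_true m2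
  replace m3 := Nat.le_of_ble_eq_true m3
  replace m4 := Nat.le_of_ble_eq_true m4
  replace m5 := Nat.le_of_ble_eq_true m5
  replace m6 := Nat.le_of_ble_eq_true m6
  replace m7 := Nat.le_of_ble_eq_true m7
  replace m8 := Nat.le_of_ble_eq_true m8
  replace m9 := Nat.le_of_ble_eq_true m9
  simp only [Nat.add_eq, Nat.mul_eq, Nat.sub_eq] at hz k0 k1 k2 k3 k4 k5 k6 k7 k8 k9 m0 m1 m2 m3 m4 m5 m6 m7 m8 m9
  have t0 := term (mu (cd10 (E a b c) (E a b d) (E a c d) (E b c d) (E a b e) (E a c e) (E b c e) (E a d e) (E b d e) (E c d e)) 0) (1 - E a b c) (cg E a b + cg E a c + cg E b c) (Fintype.card V) m0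
  have t1 := term (mu (cd10 (E a b c) (E a b d) (E a c d) (E b c d) (E a b e) (E a c e) (E b c e) (E a d e) (E b d e) (E c d e)) 1) (1 - E a b d) (cg E a b + cg E a d + cg E b d) (Fintype.card V) m1
  have t2 := term (mu (cd10 (E a b c) (E a b d) (E a c d) (E b c d) (E a b e) (E a c e) (E b c e) (E a d e) (E b d e) (E c d e)) 2) (1 - E a c d) (cg E a c + cg E a d + cg E c d) (Fintype.card V) m2
  have t3 := term (mu (cd10 (E a b c) (E a b d) (E a c d) (E b c d) (E a b e) (E a c e) (E b c e) (E a d e) (E b d e) (E c d e)) 3) (1 - E b c d) (cg E b c + cg E b d + cg E c d) (Fintype.card V) m3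
  have t4 := term (mu (cd10 (E a b c) (E a b d) (E a c d) (E b c d) (E a b e) (E a c e) (E b c e) (E a d e) (E b d e) (E c d e)) 4) (1 - E a b e) (cg E a b + cg E a e + cg E b e) (Fintype.card V) m4
  have t5 := term (mu (cd10 (E a b c) (E a b d) (E a c d) (E b c d) (E a b e) (E a c e) (E b c e) (E a d e) (E b d e) (E c d e)) 5) (1 - E a c e) (cg E a c + cg E a e + cg E c e) (Fintype.card V) m5
  have t6 := term (mu (cd10 (E a b c) (E a b d) (E a c d) (E b c d) (E a b e) (E a c e) (E b c e) (E a d e) (E b d e) (E c d e)) 6) (1 - E b c e) (cg E b c + cg E b e + cg E c e) (Fintype.card V) m6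
  have t7 := term (mu (cd10 (E a b c) (E a b d) (E a c d) (E b c d) (E a b e) (E a c e) (E b c e) (E a d e) (E b d e) (E c d e)) 7) (1 - E a d e) (cg E a d + cg E a e + cg E d e) (Fintype.card V) m7
  have t8 := term (mu (cd10 (E a b c) (E a b d) (E a c d) (E b c d) (E a b e) (E a c e) (E b c e) (E a d e) (E b d e) (E c d e)) 8) (1 - E b d e) (cg E b d + cg E b e + cg E d e) (Fintype.card V) m8
  have t9 := term (mu (cd10 (E a b c) (E a b d) (E a c d) (E b c d) (E a b e) (E a c e) (E b c e) (E a d e) (E b d e) (E c d e)) 9) (1 - E c d e) (cg E c d + cg E c e + cg E d e) (Fintype.card V) m9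
  have hz2 : (zb (cd10 (E a b c) (E a b d) (E a c d) (E b c d) (E a b e) (E a c e) (E b c e) (E a d e) (E b d e) (E c d e)) : ℤ) = 376582732513280 - 208666624 * ((mu (cd10 (E a b c) (E a b d) (E a c d) (E b c d) (E a b e) (E a c e) (E b c e) (E a d e) (E b d e) (E c d e)) 0 : ℤ) + ((mu (cd10 (E a b c) (E a b d) (E a c d) (E b c d) (E a b e) (E a c e) (E b c e) (E a d e) (E b d e) (E c d e)) 1 : ℤ) + ((mu (cd10 (E a b c) (E a b d) (E a c d) (E b c d) (E a b e) (E a c e) (E b c e) (E a d e) (E b d e) (E c d e)) 2 : ℤ) + ((mu (cd10 (E a b c) (E a b d) (E a c d) (E b c d) (E a b e) (E a c e) (E b c e) (E a d e) (E b d e) (E c d e)) 3 : ℤ) + ((mu (cd10 (E a b c) (E a b d) (E a c d) (E b c d) (E a b e) (E a c e) (E b c e) (E a d e) (E b d e) (E c d e)) 4 : ℤ) + ((mu (cd10 (E a b c) (E a b d) (E a c d) (E b c d) (E a b e) (E a c e) (E b c e) (E a d e) (E b d e) (E c d e)) 5 : ℤ) + ((mu (cd10 (E a b c) (E a b d) (E a c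 d) (E b c d) (E a b e) (E a c e) (E b c e) (E a d e) (E b d e) (E c d e)) 6 : ℤ) + ((mu (cd10 (E a b c) (E a b d) (E a c d) (E b c d) (E a b e) (E a c e) (E b c e) (E a d e) (E b d e) (E c d e)) 7 : ℤ) + ((mu (cd10 (E a b c) (E a b d) (E a c d) (E b c d) (E a b e) (E a c e) (E b c e) (E a d e) (E b d e) (E c d e)) 8 : ℤ) + ((mu (cd10 (E a b c) (E a b d) (E a c d) (E b c d) (E a b e) (E a c e) (E b c e) (E a d e) (E b d e) (E c d e)) 9 : ℤ))))))))))) := by
    have : ((zb (cd10 (E a b c) (E a b d) (E a c d) (E b c d) (E a b e) (E a c e) (E b c e) (E a d e) (E b d e) (E c d e)) : ℕ) : ℤ) + 208666624 * ((mu (cd10 (E a b c) (E a b d) (E a c d) (E b c d) (E a b e) (E a c e) (E b c e) (E a d e) (E b d e) (E c d e)) 0 : ℤ) + ((mu (cd10 (E a b c) (E a b d) (E a c d) (E b c d) (E a b e) (E a c e) (E b c e) (E a d e) (E b d e) (E c d e)) 1 : ℤ) + ((mu (cd10 (E a b c) (E a b d) (E a c d) (E b c d) (E a b e) (E a c e) (E b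 c e) (E a d e) (E b d e) (E c d e)) 2 : ℤ) + ((mu (cd10 (E a b c) (E a b d) (E a c d) (E b c d) (E a b e) (E a c e) (E b c e) (E a d e) (E b d e) (E c d e)) 3 : ℤ) + ((mu (cd10 (E a b c) (E a b d) (E a c d) (E b c d) (E a b e) (E a c e) (E b c e) (E a d e) (E b d e) (E c d e)) 4 : ℤ) + ((mu (cd10 (E a b c) (E a b d) (E a c d) (E b c d) (E a b e) (E a c e) (E b c e) (E a d e) (E b d e) (E c d e)) 5 : ℤ) + ((mu (cd10 (E a b c) (E a b d) (E a c d) (E b c d) (E a b e) (E a c e) (E b c e) (E a d e) (E b d e) (E c d e)) 6 : ℤ) + ((mu (cd10 (E a b c) (E a b d) (E a c d) (E b c d) (E a b e) (E a c e) (E b c e) (E a d e) (E b d e) (E c d e)) 7 : ℤ) + ((mu (cd10 (E a b c) (E a b d) (E a c d) (E b c d) (E a b e) (E a c e) (E b c e) (E a d e) (E b d e) (E c d e)) 8 : ℤ) + ((mu (cd10 (E a b c) (E a b d) (E a c d) (E b c d) (E a b e) (E a c e) (E b c e) (E a d e) (E b d e) (E c d e)) 9 : ℤ))))))))))) = 376582732513280 := by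 exact_mod_cast hz
    linarith
  have e : (S5 E zb kp a b c d e : ℤ) = 376582732513280 * (Fintype.card V : ℤ) + 1048576 * ((mu (cd10 (E a b c) (E a b d) (E a c d) (E b c d) (E a b e) (E a c e) (E b c e) (E a d e) (E b d e) (E c d e)) 0 : ℤ) * (100 * ((cg E a b + cg E a c + cg E b c : ℕ) : ℤ) - 199 * (Fintype.card V : ℤ)) + (mu (cd10 (E a b c) (E a b d) (E a c d) (E b c d) (E a b e) (E a c e) (E b c e) (E a d e) (E b d e) (E c d e)) 1 : ℤ) * (100 * ((cg E a b + cg E a d + cg E b d : ℕ) : ℤ) - 199 * (Fintype.card V : ℤ)) + (mu (cd10 (E a b c) (E a b d) (E a c d) (E b c d) (E a b e) (E a c e) (E b c e) (E a d e) (E b d e) (E c d e)) 2 : ℤ) * (100 * ((cg E a c + cg E a d + cg E c d : ℕ) : ℤ) - 199 * (Fintype.card V : ℤ)) + (mu (cd10 (E a b c) (E a b d) (E a c d) (E b c d) (E a b e) (E a c e) (E b c e) (E a d e) (E b d e) (E c d e)) 3 : ℤ) * (100 * ((cg E b c + cg E b d + cg E c d : ℕ) : ℤ) - 199 * (Fintype.card V :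 ℤ)) + (mu (cd10 (E a b c) (E a b d) (E a c d) (E b c d) (E a b e) (E a c e) (E b c e) (E a d e) (E b d e) (E c d e)) 4 : ℤ) * (100 * ((cg E a b + cg E a e + cg E b e : ℕ) : ℤ) - 199 * (Fintype.card V : ℤ)) + (mu (cd10 (E a b c) (E a b d) (E a c d) (E b c d) (E a b e) (E a c e) (E b c e) (E a d e) (E b d e) (E c d e)) 5 : ℤ) * (100 * ((cg E a c + cg E a e + cg E c e : ℕ) : ℤ) - 199 * (Fintype.card V : ℤ)) + (mu (cd10 (E a b c) (E a b d) (E a c d) (E b c d) (E a b e) (E a c e) (E b c e) (E a d e) (E b d e) (E c d e)) 6 : ℤ) * (100 * ((cg E b c + cg E b e + cg E c e : ℕ) : ℤ) - 199 * (Fintype.card V : ℤ)) + (mu (cd10 (E a b c) (E a b d) (E a c d) (E b c d) (E a b e) (E a c e) (E b c e) (E a d e) (E b d e) (E c d e)) 7 : ℤ) * (100 * ((cg E a d + cg E a e + cg E d e : ℕ) : ℤ) - 199 * (Fintype.card V : ℤ)) + (mu (cd10 (E a b c) (E a b d) (E a c d) (E b c d) (E a b e) (E a c e) (E b c e) (E a d e) (E b d e) (E c d e))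 8 : ℤ) * (100 * ((cg E b d + cg E b e + cg E d e : ℕ) : ℤ) - 199 * (Fintype.card V : ℤ)) + (mu (cd10 (E a b c) (E a b d) (E a c d) (E b c d) (E a b e) (E a c e) (E b c e) (E a d e) (E b d e) (E c d e)) 9 : ℤ) * (100 * ((cg E c d + cg E c e + cg E d e : ℕ) : ℤ) - 199 * (Fintype.card V : ℤ))) := by
    unfold S5
    rw [k0, k1, k2, k3, k4, k5, k6, k7, k8, k9]
    push_cast
    rw [hz2]
    ring
  rw [e]
  unfold ex
  linarith

theorem dist0 (f : V → V → V → ℤ) : ∑ a : V, ∑ b : V, ∑ c : V, ∑ d : V, ∑ e : V, f a b c =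
    (Fintype.card V : ℤ) ^ 2 * ∑ x, ∑ y, ∑ z, f x y z := by
  simp only [sum_const, card_univ, nsmul_eq_mul, ← mul_sum]
  ring

theorem dist1 (f : V → V → V → ℤ) : ∑ a : V, ∑ b : V, ∑ c : V, ∑ d : V, ∑ e : V, f a b d =
    (Fintype.card V : ℤ) ^ 2 * ∑ x, ∑ y, ∑ z, f x y z := by
  simp only [sum_const, card_univ, nsmul_eq_mul, ← mul_sum]
  ring

theorem dist2 (f : V → V → V → ℤ) : ∑ a : V, ∑ b : V, ∑ c : V, ∑ d : V, ∑ e : V, f a c d =
    (Fintype.card V : ℤ) ^ 2 * ∑ x, ∑ y, ∑ z, f x y z := by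
  simp only [sum_const, card_univ, nsmul_eq_mul, ← mul_sum]
  ring

theorem dist3 (f : V → V → V → ℤ) : ∑ a : V, ∑ b : V, ∑ c : V, ∑ d : V, ∑ e : V, f b c d =
    (Fintype.card V : ℤ) ^ 2 * ∑ x, ∑ y, ∑ z, f x y z := by
  simp only [sum_const, card_univ, nsmul_eq_mul, ← mul_sum]
  ring

theorem dist4 (f : V → V → V → ℤ) : ∑ a : V, ∑ b : V, ∑ c : V, ∑ d : V, ∑ e : V, f a b e =
    (Fintype.card V : ℤ) ^ 2 * ∑ x, ∑ y, ∑ z, f x y z := by
  simp only [sum_const, card_univ, nsmul_eq_mul, ← mul_sum]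
  ring

theorem dist5 (f : V → V → V → ℤ) : ∑ a : V, ∑ b : V, ∑ c : V, ∑ d : V, ∑ e : V, f a c e =
    (Fintype.card V : ℤ) ^ 2 * ∑ x, ∑ y, ∑ z, f x y z := by
  simp only [sum_const, card_univ, nsmul_eq_mul, ← mul_sum]
  ring

theorem dist6 (f : V → V → V → ℤ) : ∑ a : V, ∑ b : V, ∑ c : V, ∑ d : V, ∑ e : V, f b c e =
    (Fintype.card V : ℤ) ^ 2 * ∑ x, ∑ y, ∑ z, f x y z := by
  simp only [sum_const, card_univ, nsmul_eq_mul, ← mul_sum]
  ring

theorem dist7 (f : V → V → V → ℤ) : ∑ a : V, ∑ b : V, ∑ c : V, ∑ d : V, ∑ e : V, f a d e =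
    (Fintype.card V : ℤ) ^ 2 * ∑ x, ∑ y, ∑ z, f x y z := by
  simp only [sum_const, card_univ, nsmul_eq_mul, ← mul_sum]
  ring

theorem dist8 (f : V → V → V → ℤ) : ∑ a : V, ∑ b : V, ∑ c : V, ∑ d : V, ∑ e : V, f b d e =
    (Fintype.card V : ℤ) ^ 2 * ∑ x, ∑ y, ∑ z, f x y z := by
  simp only [sum_const, card_univ, nsmul_eq_mul, ← mul_sum]
  ring

theorem dist9 (f : V → V → V → ℤ) : ∑ a : V, ∑ b : V, ∑ c : V, ∑ d : V, ∑ e : V, f c d e =
    (Fintype.card V : ℤ) ^ 2 * ∑ x, ∑ y, ∑ z, f x y z := by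
  simp only [sum_const, card_univ, nsmul_eq_mul, ← mul_sum]
  ring

/-- the inequality of the certificate -/
theorem ineq (hE : Sy E) (hK : NoK5 E) :
    197912092999680 * (Fintype.card V : ℤ) ^ 3 * (∑ a, ∑ b, ∑ c, (E a b c : ℤ)) ≤
      148434069749760 * (Fintype.card V : ℤ) ^ 6 +
        60 * 1048576 * 127844 * ((Fintype.card V : ℤ) ^ 2 * ∑ x, ∑ y, ∑ z, (ex E x y z : ℤ)) := by
  have h := main hE hK
  have h2 : ∑ a, ∑ b, ∑ c, ∑ d, ∑ e, (S5 E zb kp a b c d e : ℤ) ≤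
      ∑ a : V, ∑ b : V, ∑ c : V, ∑ d : V, ∑ e : V, (376582732513280 * (Fintype.card V : ℤ) +
        1048576 * 127844 * ((ex E a b c : ℤ) + (ex E a b d : ℤ) + (ex E a c d : ℤ) + (ex E b c d : ℤ) + (ex E a b e : ℤ) + (ex E a c e : ℤ) + (ex E b c e : ℤ) + (ex E a d e : ℤ) + (ex E b d e : ℤ) + (ex E c d e : ℤ))) :=
    sum_le_sum fun a _ => sum_le_sum fun b _ => sum_le_sum fun c _ => sum_le_sum fun d _ =>
      sum_le_sum fun e _ => S5_le E hE a b c d e
  have h3 : ∑ a : V, ∑ b : V, ∑ c : V, ∑ d : V, ∑ e : V, (376582732513280 * (Fintype.card V : ℤ) +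
        1048576 * 127844 * ((ex E a b c : ℤ) + (ex E a b d : ℤ) + (ex E a c d : ℤ) + (ex E b c d : ℤ) + (ex E a b e : ℤ) + (ex E a c e : ℤ) + (ex E b c e : ℤ) + (ex E a d e : ℤ) + (ex E b d e : ℤ) + (ex E c d e : ℤ))) =
      376582732513280 * (Fintype.card V : ℤ) ^ 6 + 10 * 1048576 * 127844 *
        ((Fintype.card V : ℤ) ^ 2 * ∑ x, ∑ y, ∑ z, (ex E x y z : ℤ)) := by
    simp only [mul_add, sum_add_distrib]
    simp only [← mul_sum]
    rw [dist0 (fun x y z => (ex E x y z : ℤ)), dist1 (fun x y z => (ex E x y z : ℤ)), dist2 (fun x y z => (ex E x y z : ℤ)), dist3 (fun x y z => (ex E x y z : ℤ)), dist4 (fun x y z => (ex E x y z : ℤ)), dist5 (fun x y z => (ex E x y z : ℤ)), dist6 (fun x y z => (ex E x y z : ℤ)), dist7 (fun x y z => (ex E x y z : ℤ)), dist8 (fun x y z => (ex E x y z : ℤ)), dist9 (fun x y z => (ex E x y z : ℤ))]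
    simp only [sum_const, card_univ, nsmul_eq_mul]
    ring
  rw [h3] at h2
  linarith

end
end Pool.Agent.T9h10.CS
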